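import Mathlib
import Pool.Agent.Helper796_theta.Main1

/-!
# Hochster's theta pairing degenerates to graded modules over the weighted tangent cone

Let `(R, 𝔪, k)` be a regular local ring of dimension `d + 1` (any characteristic, mixed
characteristic included, ramified or not), `x_0, …, x_d` generators of `𝔪`, with positive integer
weights `w_i`.  Let `f ∈ R[X_0, …, X_d]` be a polynomial all of whose monomials have weight `≥ L`,
and let `F ∈ k[X_0, …, X_d]` be the image of its weight `L` part, the weighted leading form.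
Assume that `A = R / (f(x))` is regular off its maximal ideal and that `C = k[X] / (F)` is regular
off the origin.  Then for all finitely generated `A`-modules `M`, `N` there are finitely generated
GRADED `C`-modules `M₀`, `N₀` with `θ^A(M, N) = θ^C(M₀, N₀)`.
-/

open IsLocalRing

universe u

namespace Pool.Agent.Results.MP_484054_ag.Degeneration

/-- `Tor_i^A(M, N)` -/
noncomputable abbrev tor (A : Type u) [CommRing A] (i : ℕ) (M N : Type u) [AddCommGroup M]
    [Module A M] [AddCommGroup N] [Module A N] : ModuleCat.{u} A :=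
  ((CategoryTheory.Tor (ModuleCat.{u} A) i).obj (ModuleCat.of A M)).obj (ModuleCat.of A N)

/-- `ℓ(Tor_{2e+2}^A(M, N)) - ℓ(Tor_{2e+1}^A(M, N))`, for lengths that are finite -/
noncomputable def theta (A : Type u) [CommRing A] (e : ℕ) (M N : Type u) [AddCommGroup M]
    [Module A M] [AddCommGroup N] [Module A N] : ℤ :=
  ((Module.length A (tor A (2 * e + 2) M N)).toNat : ℤ) -
    ((Module.length A (tor A (2 * e + 1) M N)).toNat : ℤ)

/-- `Tor_{2e+1}^A(M, N)` and `Tor_{2e+2}^A(M, N)` have finite length -/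
def FiniteTor (A : Type u) [CommRing A] (e : ℕ) (M N : Type u) [AddCommGroup M]
    [Module A M] [AddCommGroup N] [Module A N] : Prop :=
  Module.length A (tor A (2 * e + 1) M N) ≠ ⊤ ∧ Module.length A (tor A (2 * e + 2) M N) ≠ ⊤

/-- the additive subgroups `𝒢 j`, `j ∈ ℤ`, form a grading of the module `M₀` over the ring
`k[X_0, …, X_(n-1)] / (F)`, graded by `deg X_i = w i` and `deg c = 0` for `c ∈ k` -/
structure Grading {k : Type u} [Field k] {n : ℕ} (w : Fin n → ℕ) (F : MvPolynomial (Fin n) k)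
    (M₀ : Type u) [AddCommGroup M₀] [Module (MvPolynomial (Fin n) k ⧸ Ideal.span {F}) M₀]
    (𝒢 : ℤ → AddSubgroup M₀) : Prop where
  internal : DirectSum.IsInternal 𝒢
  smul_C : ∀ (c : k) (j : ℤ) (z : M₀), z ∈ 𝒢 j →
    (Ideal.Quotient.mk (Ideal.span {F}) (MvPolynomial.C c)) • z ∈ 𝒢 j
  smul_X : ∀ (i : Fin n) (j : ℤ) (z : M₀), z ∈ 𝒢 j →
    (Ideal.Quotient.mk (Ideal.span {F}) (MvPolynomial.X i)) • z ∈ 𝒢 (j + w i)

open Pool.Agent.Helper796_theta in
lemma lead_eq {R : Type u} [CommRing R] {k : Type u} [Field k] (ρ : R →+* k) {n : ℕ}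
    (w : Fin n → ℕ) (L : ℕ) (f : MvPolynomial (Fin n) R)
    (hf : ∀ α ∈ f.support, L ≤ Finsupp.weight w α) :
    Fam.lead ρ w L f =
      MvPolynomial.map ρ (MvPolynomial.weightedHomogeneousComponent w L f) := by
  ext α
  rw [Fam.lead, MvPolynomial.coeff_map, MvPolynomial.coeff_map, Fam.coeff_pi0_ft L f hf,
    MvPolynomial.coeff_weightedHomogeneousComponent]

open Pool.Agent.Helper796_theta in
lemma finiteTor {Q A : Type u} [CommRing Q] [CommRing A] [Algebra Q A] {f : Q} {D : ℕ}
    {𝔪 : Ideal A} (h : HypData Q A f D 𝔪) (M N : Type u) [AddCommGroup M] [Module A M]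
    [Module.Finite A M] [AddCommGroup N] [Module A N] [Module.Finite A N] (e : ℕ)
    (he : D ≤ 2 * e) : FiniteTor A e M N := by
  have hn := h.noethA
  have hT : (tower (B := A) N).IsFin := fun i => tower_F_finite N i
  have hg := h.good (tower N) hT M
  constructor
  · have h1 := length_tor_eq M (tower (B := A) N) (2 * e)
    change Module.length A (tor A (2 * e + 1) M N) = _ at h1
    rw [h1]
    exact hg.fin _ he
  · have h1 := length_tor_eq M (tower (B := A) N) (2 * e + 1)
    change Module.length A (tor A (2 * e + 2) M N) = _ at h1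
    rw [h1]
    exact hg.fin _ (by omega)

open Pool.Agent.Helper796_theta in
theorem result {R : Type u} [CommRing R] [IsRegularLocalRing R] (d : ℕ)
    (hd : ringKrullDim R = (d + 1 : ℕ))
    (x : Fin (d + 1) → R) (hx : Ideal.span (Set.range x) = maximalIdeal R)
    (w : Fin (d + 1) → ℕ) (hw : ∀ i, 0 < w i) (L : ℕ) (hL : 0 < L)
    (f : MvPolynomial (Fin (d + 1)) R) (hf : ∀ α ∈ f.support, L ≤ Finsupp.weight w α)
    (F : MvPolynomial (Fin (d + 1)) (ResidueField R))
    (hF : F = MvPolynomial.map (residue R) (MvPolynomial.weightedHomogeneousComponent w L f))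
    (hF0 : F ≠ 0)
    (hA : ∀ (P : Ideal (R ⧸ Ideal.span {MvPolynomial.eval x f})) [P.IsPrime], ¬ P.IsMaximal →
      IsRegularLocalRing (Localization.AtPrime P))
    (hC : ∀ (P : Ideal (MvPolynomial (Fin (d + 1)) (ResidueField R) ⧸ Ideal.span {F}))
      [P.IsPrime] (i : Fin (d + 1)), Ideal.Quotient.mk (Ideal.span {F}) (MvPolynomial.X i) ∉ P →
        IsRegularLocalRing (Localization.AtPrime P))
    (M N : Type u) [AddCommGroup M] [Module (R ⧸ Ideal.span {MvPolynomial.eval x f}) M]
    [Module.Finite (R ⧸ Ideal.span {MvPolynomial.eval x f}) M]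
    [AddCommGroup N] [Module (R ⧸ Ideal.span {MvPolynomial.eval x f}) N]
    [Module.Finite (R ⧸ Ideal.span {MvPolynomial.eval x f}) N] :
    ∃ (M₀ N₀ : Type u) (_ : AddCommGroup M₀)
      (_ : Module (MvPolynomial (Fin (d + 1)) (ResidueField R) ⧸ Ideal.span {F}) M₀)
      (_ : AddCommGroup N₀)
      (_ : Module (MvPolynomial (Fin (d + 1)) (ResidueField R) ⧸ Ideal.span {F}) N₀)
      (𝒢 : ℤ → AddSubgroup M₀) (ℋ : ℤ → AddSubgroup N₀),
      Module.Finite (MvPolynomial (Fin (d + 1)) (ResidueField R) ⧸ Ideal.span {F}) M₀ ∧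
      Module.Finite (MvPolynomial (Fin (d + 1)) (ResidueField R) ⧸ Ideal.span {F}) N₀ ∧
      Grading w F M₀ 𝒢 ∧ Grading w F N₀ ℋ ∧
      ∀ e : ℕ, d ≤ 2 * e →
        FiniteTor (R ⧸ Ideal.span {MvPolynomial.eval x f}) e M N ∧
        FiniteTor (MvPolynomial (Fin (d + 1)) (ResidueField R) ⧸ Ideal.span {F}) e M₀ N₀ ∧
        theta (R ⧸ Ideal.span {MvPolynomial.eval x f}) e M N =
          theta (MvPolynomial (Fin (d + 1)) (ResidueField R) ⧸ Ideal.span {F}) e M₀ N₀ := by
  rw [← lead_eq (residue R) w L f hf] at hF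
  subst hF
  have hcoef : ∀ α, (Fam.lead (residue R) w L f).coeff α =
      residue R (if Finsupp.weight w α = L then f.coeff α else 0) := by
    intro α
    rw [Fam.lead, MvPolynomial.coeff_map, Fam.coeff_pi0_ft L f hf]
  have hk : RingHom.ker (residue R) = Fam.IR x (d + 1) := by
    rw [Fam.IR_top hx]
    exact Ideal.mk_ker
  have hyp : Fam.Hyp x w L f := by
    refine ⟨hw, hL, hf, Fam.regSeq hx hd, Fam.IR_prime hx hd le_rfl, ?_⟩
    obtain ⟨α, hα⟩ := MvPolynomial.ne_zero_iff.1 hF0
    rw [hcoef] at hα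
    by_cases h : Finsupp.weight w α = L
    · rw [if_pos h] at hα
      refine ⟨α, h, fun hmem => hα ?_⟩
      rw [← hk] at hmem
      exact hmem
    · rw [if_neg h, map_zero] at hα
      exact absurd rfl hα
  have hF00 : (Fam.lead (residue R) w L f).coeff 0 = 0 := by
    rw [hcoef, map_zero, if_neg (by omega), map_zero]
  obtain ⟨M₀, N₀, i1, i2, i3, i4, 𝒢, ℋ, f1, f2, g1, g2, h⟩ :=
    Fam.main1 hyp hx hd hk hA hC hF0 hF00 M N
  refine ⟨M₀, N₀, i1, i2, i3, i4, 𝒢, ℋ, f1, f2, ⟨g1.internal, g1.smul_C, g1.smul_X⟩,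
    ⟨g2.internal, g2.smul_C, g2.smul_X⟩, ?_⟩
  intro e he
  have HA' := Fam.hypData_A hyp hx hd hA
  have HC' := Fam.hypData_C hF0 hF00 hC
  exact ⟨finiteTor HA' M N e he, finiteTor HC' M₀ N₀ e he, h e he⟩

end Pool.Agent.Results.MP_484054_ag.Degeneration
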