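import Mathlib
import Pool.Agent.Helper796_theta.Close2
import Pool.Agent.Results.MP_484054_ag.Degeneration

/-!
# Transfer of Tor and of Hochster's theta pairing between close hypersurfaces

Let `R` be a regular local ring of dimension `d + 1` and `f ∈ R` such that `A = R / (f)` is regular
off its maximal ideal.  Let `π ∈ R` have no factor in common with `f`, and suppose that a power
`π ^ s` lies in `(D f) + (f)` for a derivation `D` of `R`.  Let `R'` be a domain which is complete
for the topology of a nonzero `π' ∈ R'`, let `f' ∈ R'` have no factor in common with `π'`, and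
suppose that `π' ^ s` lies in `(D' f') + (f')` for a derivation `D'` of `R'`.  Assume that
`(R, π, f)` and `(R', π', f')` agree modulo `π ^ (2 s + 1)` and `π' ^ (2 s + 1)`.

Then for all finitely generated `A`-modules `M`, `N` there are finitely generated modules
`M'`, `N'` over `A' = R' / (f')` such that for every `i > d` the modules `Tor_i^A(M, N)` and
`Tor_i^A'(M', N')` have the same finite length.  In particular `θ^A(M, N) = θ^A'(M', N')`.

Main case: `R = V[[x_1, …, x_d]]` for a complete discrete valuation ring `V` of mixed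
characteristic with uniformizer `π`, `R' = k[[t, x_1, …, x_d]]`, `π' = t`, when the residue
characteristic `p` is divisible by `π ^ (2 s + 1)`: then `A'` has equal characteristic `p`.
-/

open IsLocalRing

universe u

namespace Pool.Agent.Results.MP_484054_ag.CloseRings

open Pool.Agent.Results.MP_484054_ag.Degeneration

/-- the hypersurface ring `R / (f)` -/
abbrev Hs {R : Type u} [CommRing R] (f : R) : Type u := R ⧸ Ideal.span {f}

/-- the ring is regular at every prime ideal which is not maximal -/
def Isolated (A : Type u) [CommRing A] : Prop :=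
  ∀ (P : Ideal A) [P.IsPrime], ¬ P.IsMaximal → IsRegularLocalRing (Localization.AtPrime P)

/-- `π` has no factor in common with `f`, and `π ^ s ∈ (D f) + (f)` for a derivation `D` -/
def JacPow {R : Type u} [CommRing R] (π f : R) (s : ℕ) : Prop :=
  (∀ r : R, f ∣ π * r → f ∣ r) ∧ ∃ (D : Derivation ℤ R R) (b : R), D f + b * f = π ^ s

/-- `(R, π, f)` and `(R', π', f')` agree modulo `π ^ n` and `π' ^ n`: there are surjections of `R`
and `R'` onto one ring, with kernels `(π ^ n)` and `(π' ^ n)`, which agree on `π, π'` and `f, f'` -/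
def Close {R R' : Type u} [CommRing R] [CommRing R'] (π f : R) (π' f' : R') (n : ℕ) : Prop :=
  ∃ (S : Type u) (_ : CommRing S) (ρ : R →+* S) (ρ' : R' →+* S),
    Function.Surjective ρ ∧ Function.Surjective ρ' ∧ (∀ r, ρ r = 0 ↔ π ^ n ∣ r) ∧
      (∀ r, ρ' r = 0 ↔ π' ^ n ∣ r) ∧ ρ π = ρ' π' ∧ ρ f = ρ' f'

/-- for all finitely generated `A`-modules `M`, `N` there are finitely generated `A'`-modules
`M'`, `N'` such that `Tor_i^A(M, N)` and `Tor_i^A'(M', N')` have the same finite length for `i > d`,
and thus `θ^A(M, N) = θ^A'(M', N')` -/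
def TorTransfer (A A' : Type u) [CommRing A] [CommRing A'] (d : ℕ) : Prop :=
  ∀ (M N : Type u) [AddCommGroup M] [Module A M] [Module.Finite A M] [AddCommGroup N]
    [Module A N] [Module.Finite A N], ∃ (M' N' : Type u) (_ : AddCommGroup M') (_ : Module A' M')
      (_ : AddCommGroup N') (_ : Module A' N'), Module.Finite A' M' ∧ Module.Finite A' N' ∧
      (∀ i : ℕ, d < i → Module.length A (tor A i M N) ≠ ⊤ ∧
        Module.length A' (tor A' i M' N') = Module.length A (tor A i M N)) ∧
      ∀ e : ℕ, d ≤ 2 * e → FiniteTor A e M N ∧ FiniteTor A' e M' N' ∧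
        theta A e M N = theta A' e M' N'

open Pool.Agent.Helper796_theta in
theorem result {R R' : Type u} [CommRing R] [IsRegularLocalRing R] [CommRing R'] [IsDomain R']
    (d : ℕ) (hd : ringKrullDim R = (d + 1 : ℕ))
    (π f : R) (hf : f ≠ 0) (hfm : f ∈ maximalIdeal R) (hA : Isolated (Hs f))
    (π' f' : R') (hπ' : π' ≠ 0) (hf' : f' ≠ 0) [IsAdicComplete (Ideal.span {π'}) R']
    (s : ℕ) (hs : 0 < s) (hJ : JacPow π f s) (hJ' : JacPow π' f' s)
    (hC : Close π f π' f' (2 * s + 1)) : TorTransfer (Hs f) (Hs f') d := by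
  intro M N _ _ _ _ _ _
  have hdom := H379R3.isDomain R
  have hle : Ideal.span {f} ≤ maximalIdeal R := by
    rw [Ideal.span_singleton_le_iff_mem]
    exact hfm
  have hloc := Fam.quot_local hle
  have hmax : Ideal.map (Ideal.Quotient.mk (Ideal.span {f})) (maximalIdeal R) =
      maximalIdeal (R ⧸ Ideal.span {f}) := H379R3.map_mk_maximalIdeal _
  have H : HypData R (R ⧸ Ideal.span {f}) f d
      (Ideal.map (Ideal.Quotient.mk _) (maximalIdeal R)) := by
    refine ⟨inferInstance, Fam.redRing_quot hf, GD_of_regularLocal (by rw [hd]), ?_, ?_, ?_⟩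
    · rw [hmax]
      exact maximalIdeal.isMaximal _
    · intro P hP hnot
      apply hA P
      intro hPm
      apply hnot
      rw [hmax, IsLocalRing.eq_maximalIdeal hPm]
    · exact Fam.dim_quot_le hf (by rw [hd])
  have hred' : RedRing f' (R' ⧸ Ideal.span {f'}) := Fam.redRing_quot hf'
  obtain ⟨hπf, D, b, hD⟩ := hJ
  obtain ⟨hπf', D', b', hD'⟩ := hJ'
  obtain ⟨S, _, ρ, ρ', hρ, hρ', hρk, hρk', hρπ, hρf⟩ := hC
  obtain ⟨M', N', i1, i2, i3, i4, g1, g2, h⟩ := close_transfer hs H hred'.surj hred'.ker hf hf' hπ'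
    hπf hπf' D hD D' hD' ρ hρ hρk ρ' hρ' hρk' hρπ hρf M N
  have hfin : ∀ i : ℕ, d < i → Module.length (Hs f) (tor (Hs f) i M N) ≠ ⊤ := by
    intro i hi
    have hn := H.noethA
    have hT : (tower (B := R ⧸ Ideal.span {f}) N).IsFin := fun i => tower_F_finite N i
    have hg := H.good (tower N) hT M
    obtain ⟨j, rfl⟩ : ∃ j, i = j + 1 := ⟨i - 1, by omega⟩
    have h1 := length_tor_eq M (tower (B := R ⧸ Ideal.span {f}) N) j
    exact fun h2 => hg.fin j (by omega) (h1.symm.trans h2)
  have heq : ∀ i : ℕ, d < i → Module.length (Hs f') (tor (Hs f') i M' N') =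
      Module.length (Hs f) (tor (Hs f) i M N) := by
    intro i hi
    obtain ⟨j, rfl⟩ : ∃ j, i = j + 1 := ⟨i - 1, by omega⟩
    exact (h j (by omega)).symm
  refine ⟨M', N', i1, i2, i3, i4, g1, g2, fun i hi => ⟨hfin i hi, heq i hi⟩, fun e he => ?_⟩
  refine ⟨⟨hfin _ (by omega), hfin _ (by omega)⟩, ⟨?_, ?_⟩, ?_⟩
  · rw [heq _ (by omega)]
    exact hfin _ (by omega)
  · rw [heq _ (by omega)]
    exact hfin _ (by omega)
  · rw [theta, theta, heq _ (by omega), heq _ (by omega)]

end Pool.Agent.Results.MP_484054_ag.CloseRings
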