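import Mathlib
import Pool.Agent.Helper796_theta.Main2
import Pool.Agent.Results.MP_484054_ag.Degeneration

/-!
# Unconditional vanishing of Hochster's theta pairing, mixed characteristic included

Let `(R, 𝔪, k)` be a regular local ring of dimension `d + 1`, with regular parameters
`x_0, …, x_d` of positive weights `w_i`, and let `f` have weighted leading form `F` of weight `L`,
such that `A = R / (f)` is regular off its maximal ideal and `k[X] / (F)` is regular off the
origin.  Let `I` be a set of indices such that for `i ∈ I` the variable `X_i` occurs in `F` only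
through a term `c X_i ^ (a_i p ^ e_i)`, `c ≠ 0`, where `p` is the characteristic exponent of `k`
and `a_i ≠ 0` in `k`.  Let `g` be a natural number, nonzero in `k`, dividing `L` and the weights
`w_i` for `i ∉ I`.  If no integers `b_i` with `0 < b_i < a_i` (`i ∈ I`) satisfy
`g ∣ ∑ b_i w_i`, then `θ^A = 0`.

Examples: for `F = c_0 X_0^2 + ⋯ + c_d X_d^2` with `d` even and `char k ≠ 2` (ordinary double
points of even dimension) take `w = 1`, `L = g = 2`, `I` everything.
-/

open IsLocalRing

universe u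

namespace Pool.Agent.Results.MP_484054_ag.NoCharacters

open Pool.Agent.Results.MP_484054_ag.Degeneration

open Pool.Agent.Helper796_theta in
theorem result {R : Type u} [CommRing R] [IsRegularLocalRing R] (d : ℕ)
    (hd : ringKrullDim R = (d + 1 : ℕ))
    (x : Fin (d + 1) → R) (hx : Ideal.span (Set.range x) = maximalIdeal R)
    (w : Fin (d + 1) → ℕ) (hw : ∀ i, 0 < w i) (L : ℕ) (hL : 0 < L)
    (f : MvPolynomial (Fin (d + 1)) R) (hf : ∀ α ∈ f.support, L ≤ Finsupp.weight w α)
    (F : MvPolynomial (Fin (d + 1)) (ResidueField R))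
    (hF : F = MvPolynomial.map (residue R) (MvPolynomial.weightedHomogeneousComponent w L f))
    (hA : ∀ (P : Ideal (R ⧸ Ideal.span {MvPolynomial.eval x f})) [P.IsPrime], ¬ P.IsMaximal →
      IsRegularLocalRing (Localization.AtPrime P))
    (hC : ∀ (P : Ideal (MvPolynomial (Fin (d + 1)) (ResidueField R) ⧸ Ideal.span {F}))
      [P.IsPrime] (i : Fin (d + 1)), Ideal.Quotient.mk (Ideal.span {F}) (MvPolynomial.X i) ∉ P →
        IsRegularLocalRing (Localization.AtPrime P))
    (p : ℕ) [ExpChar (ResidueField R) p]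
    (I : Finset (Fin (d + 1))) (a e : Fin (d + 1) → ℕ)
    (ha : ∀ i ∈ I, (a i : ResidueField R) ≠ 0)
    (hI : ∀ i ∈ I, ∃ c : ResidueField R, c ≠ 0 ∧
      ∃ G : MvPolynomial {j : Fin (d + 1) // j ≠ i} (ResidueField R),
        F = MvPolynomial.C c * MvPolynomial.X i ^ (a i * p ^ e i) +
          MvPolynomial.rename Subtype.val G)
    (g : ℕ) (hg : (g : ResidueField R) ≠ 0) (hgL : g ∣ L) (hgw : ∀ i, i ∉ I → g ∣ w i)
    (hNC : ∀ b : Fin (d + 1) → ℕ, (∀ i ∈ I, 0 < b i ∧ b i < a i) → ¬ g ∣ ∑ i ∈ I, b i * w i)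
    (M N : Type u) [AddCommGroup M] [Module (R ⧸ Ideal.span {MvPolynomial.eval x f}) M]
    [Module.Finite (R ⧸ Ideal.span {MvPolynomial.eval x f}) M]
    [AddCommGroup N] [Module (R ⧸ Ideal.span {MvPolynomial.eval x f}) N]
    [Module.Finite (R ⧸ Ideal.span {MvPolynomial.eval x f}) N] (n : ℕ) (hn : d ≤ 2 * n) :
    FiniteTor (R ⧸ Ideal.span {MvPolynomial.eval x f}) n M N ∧
      theta (R ⧸ Ideal.span {MvPolynomial.eval x f}) n M N = 0 := by
  obtain ⟨i₀, hi₀⟩ : I.Nonempty := by
    by_contra hne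
    rw [Finset.not_nonempty_iff_eq_empty] at hne
    subst hne
    exact hNC 0 (by simp) (by simp)
  have hlead := lead_eq (residue R) w L f hf
  rw [← hlead] at hF
  subst hF
  have hcoef : ∀ α, (Fam.lead (residue R) w L f).coeff α =
      residue R (if Finsupp.weight w α = L then f.coeff α else 0) := by
    intro α
    rw [Fam.lead, MvPolynomial.coeff_map, Fam.coeff_pi0_ft L f hf]
  have hweight : ∀ α, (Fam.lead (residue R) w L f).coeff α ≠ 0 → Finsupp.weight w α = L := by
    intro α hα
    by_contra h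
    rw [hcoef, if_neg h, map_zero] at hα
    exact hα rfl
  have hF0 : Fam.lead (residue R) w L f ≠ 0 := by
    obtain ⟨c, hc, G, hFG⟩ := hI i₀ hi₀
    have hpos : 0 < a i₀ * p ^ e i₀ := by
      refine Nat.mul_pos ?_ (pow_pos (expChar_pos (ResidueField R) p) _)
      rcases Nat.eq_zero_or_pos (a i₀) with h | h
      · have := ha i₀ hi₀
        rw [h] at this
        simp at this
      · exact h
    rw [MvPolynomial.ne_zero_iff]
    refine ⟨Finsupp.single i₀ (a i₀ * p ^ e i₀), ?_⟩
    rw [hFG, MvPolynomial.coeff_add, MvPolynomial.coeff_C_mul, MvPolynomial.coeff_X_pow,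
      if_pos rfl, mul_one, MvPolynomial.coeff_rename_eq_zero, add_zero]
    · exact hc
    · intro u hu
      exfalso
      have h2 := DFunLike.congr_fun hu i₀
      rw [Finsupp.single_eq_same, Finsupp.mapDomain_of_notMem_range] at h2
      · omega
      · rintro ⟨l, hl⟩
        exact l.2 hl
  have hk : RingHom.ker (residue R) = Fam.IR x (d + 1) := by
    rw [Fam.IR_top hx]
    exact Ideal.mk_ker
  have hyp : Fam.Hyp x w L f := by
    refine ⟨hw, hL, hf, Fam.regSeq hx hd, Fam.IR_prime hx hd le_rfl, ?_⟩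
    obtain ⟨α, hα⟩ := MvPolynomial.ne_zero_iff.1 hF0
    rw [hcoef] at hα
    by_cases h : Finsupp.weight w α = L
    · rw [if_pos h] at hα
      refine ⟨α, h, fun hmem => hα ?_⟩
      rw [← hk] at hmem
      exact hmem
    · rw [if_neg h, map_zero] at hα
      exact absurd rfl hα
  have hF00 : (Fam.lead (residue R) w L f).coeff 0 = 0 := by
    rw [hcoef, map_zero, if_neg (by omega), map_zero]
  have HA' := Fam.hypData_A hyp hx hd hA
  have HC' := Fam.hypData_C hF0 hF00 hC
  obtain ⟨M₀, N₀, i1, i2, i3, i4, 𝒢, ℋ, f1, f2, g1, g2, h⟩ :=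
    Fam.main1 hyp hx hd hk hA hC hF0 hF00 M N
  refine ⟨finiteTor HA' M N n hn, ?_⟩
  have h1 := h n hn
  change thTor _ n M N = 0
  rw [h1]
  have hCn := HC'.noethA
  have hT : (tower (B := Fam.CA (residue R) w L f) N₀).IsFin := fun i => tower_F_finite N₀ i
  have h2 := thTor_eq M₀ (tower (B := Fam.CA (residue R) w L f) N₀) n
  have h3 := gr_vanish HC' w L hweight I a e ha hI g hg hgL hgw hNC _ hT (2 * n) hn g1
  rw [h3] at h2
  exact h2

end Pool.Agent.Results.MP_484054_ag.NoCharacters
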